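import Pool.Agent.U854.OP.Tors
import Pool.Agent.U854.ZM.Core

/-!
Local types of the coordinates in `Y(1)^n × G_m^k` at one place.
-/

set_option autoImplicit false

namespace Pool.Agent.U854.OP

open UpperHalfPlane H294ZP Function NumberField IsDedekindDomain Pool.Agent.N135.ZO

/-- The points `c + μ y`, `y` a unit, have a fixed distance from `a`. -/
theorem at_distance {K : Type} [Field K] [NumberField K] (σ : K →+* ℂ)
    (v : HeightOneSpectrum (𝓞 K)) {V : ValuationSubring ℂ}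
    (hA1 : ∀ a : 𝓞 K, V.valuation (σ a) ≤ 1)
    (hA2 : ∀ a : 𝓞 K, V.valuation (σ a) < 1 ↔ a ∈ v.asIdeal) {a c μ : K}
    (hne : v.valuation K (c - a) ≠ v.valuation K μ) {y : ℂ} (hy : V.valuation y = 1) :
    ∃ δ : K, δ ≠ 0 ∧ v.valuation K δ = max (v.valuation K (c - a)) (v.valuation K μ) ∧
      V.valuation (σ c + σ μ * y - σ a) = V.valuation (σ δ) := by
  have e1 : σ c + σ μ * y - σ a = σ (c - a) + σ μ * y := by rw [map_sub]; ring
  have e2 : V.valuation (σ μ * y) = V.valuation (σ μ) := by rw [map_mul, hy, mul_one]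
  rcases lt_or_gt_of_ne hne with h | h
  · have h0 : μ ≠ 0 := by
      rintro rfl
      rw [map_zero] at h
      exact not_lt_zero h
    refine ⟨μ, h0, (max_eq_right h.le).symm, ?_⟩
    rw [e1, Valuation.map_add_eq_of_lt_right _ (by rw [e2]; exact val_pow_lt hA1 hA2 h0 h), e2]
  · have h0 : c - a ≠ 0 := by
      intro h0
      rw [h0, map_zero] at h
      exact not_lt_zero h
    refine ⟨c - a, h0, (max_eq_left h.le).symm, ?_⟩
    rw [e1, Valuation.map_add_eq_of_lt_left _ (by rw [e2]; exact val_pow_lt hA1 hA2 h0 h)]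

/-- The modular coordinates: the ones at which the point is near to the cusp or to an ordinary CM
point are not constant, and two of them in the same class are both near to the cusp, with exponents
tied by the degree of the isogeny. -/
theorem pair_val {p : ℕ} (hp : p.Prime) {V : ValuationSubring ℂ}
    (hpV : V.valuation (p : ℂ) < 1) {n : ℕ} (C : Finset (Fin n)) (e : Fin n → ℕ)
    (τ : Fin n → ℍ) (h2 : ∀ i, i ∉ C → p ≠ 2)
    (hcm : ∀ i, i ∉ C → IsCM (τ i)) (hord : ∀ i, i ∉ C → OrdAt p (τ i))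
    (hone : ∀ i, i ∉ C → V.valuation (jj (τ i)) = 1)
    (hone' : ∀ i, i ∉ C → V.valuation (jj (τ i) - 1728) = 1)
    (hiso : ∀ i j, i ∉ C → j ∉ C → i ≠ j → ¬ Isog (jj (τ i)) (jj (τ j)))
    (U : Fin n → Prop) {x : Fin n → ℂ} {g : ℂ} (hg1 : V.valuation g < 1)
    (hcusp : ∀ i ∈ C, U i → V.valuation (x i) * V.valuation g ^ e i = 1 ∧ 1 < V.valuation (x i))
    (hnear : ∀ i, i ∉ C → U i → V.valuation (x i - jj (τ i)) < 1 ∧
      (∀ k : ℕ, V.valuation (x i - jj (τ i)) ^ ((p - 1) * p ^ k) ≠ V.valuation (p : ℂ)) ∧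
      x i ≠ jj (τ i))
    {r : ℕ} (Z : SpecialDatum n r) (hxZ : x ∈ Z.locus) (i : Fin n) (hi : U i) :
    Z.cls i ≠ none ∧ ∀ j, U j → i ≠ j → Z.cls i = Z.cls j → i ∈ C ∧ j ∈ C ∧
      IsSquare (((Z.mat i).det * (Z.mat j).det).toNat * (e i * e j)) := by
  classical
  have hjV : ∀ i, i ∉ C → jj (τ i) ∈ V := fun i hi => (V.valuation_le_one_iff _).1 (hone i hi).le
  have hmemx : ∀ i, i ∉ C → U i → x i ∈ V := by
    intro i hi hU
    obtain ⟨e1, -, -⟩ := hnear i hi hU
    have : x i = jj (τ i) + (x i - jj (τ i)) := by ring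
    rw [this]
    exact V.add_mem _ _ (hjV i hi) ((V.valuation_le_one_iff _).1 e1.le)
  have hG : ∀ (P : Pkg p hp.pos), ∀ i, i ∉ C → G0 P V (jj (τ i)) := by
    intro P i hi
    obtain ⟨e, M, he, hdet, htr, hfix⟩ := hord i hi
    exact ⟨hjV i hi, ord_of_fix hp hpV P (hjV i hi) he hdet htr hfix, hone i hi, hone' i hi⟩
  have hnotnone : Z.cls i ≠ none := by
    intro hn
    obtain ⟨z, hz⟩ := hxZ
    have hxi := (hz i).1 hn
    by_cases hiC : i ∈ C
    · have h3 := (hcusp i hiC hi).2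
      have h4 : x i ∈ V := by
        rw [hxi]
        exact mem_of_integral_int V (singular_modulus_integral _ (Z.isCM i))
      exact absurd ((V.valuation_le_one_iff _).2 h4) (not_le.2 h3)
    · obtain ⟨P⟩ := exists_pkg hp (h2 i hiC)
      obtain ⟨hq1, hq2, hq3⟩ := hnear i hiC hi
      rw [hxi] at hq1 hq2 hq3
      obtain ⟨k, hk⟩ := cm_radius hp (h2 i hiC) hpV P (hcm i hiC) (Z.isCM i)
        (hG P i hiC) hq1 hq3
      exact hq2 k hk
  refine ⟨hnotnone, ?_⟩
  intro j hj hij hcls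
  obtain ⟨z, hz⟩ := hxZ
  have hxZ' : x ∈ Z.locus := ⟨z, hz⟩
  obtain ⟨k, hk⟩ := Option.ne_none_iff_exists'.1 hnotnone
  have hk' : Z.cls j = some k := hcls ▸ hk
  obtain ⟨w, hw1, hw2⟩ := (hz i).2 k hk
  obtain ⟨w', hw1', hw2'⟩ := (hz j).2 k hk'
  by_cases hiC : i ∈ C
  · by_cases hjC : j ∈ C
    · refine ⟨hiC, hjC, ?_⟩
      have hpos : 0 < (Z.mat i).det * (Z.mat j).det := mul_pos (Z.det_pos i) (Z.det_pos j)
      have hN : 0 < ((Z.mat i).det * (Z.mat j).det).toNat := by omega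
      have h3 : Polynomial.eval₂ (Polynomial.aeval (x i) : Polynomial ℂ →ₐ[ℂ] ℂ).toRingHom (x j)
          (Pool.Agent.W282.ZP.Psi ((Z.mat i).det * (Z.mat j).det).toNat) = 0 := by
        rw [← Pool.Agent.W282.ZP.eval_relPoly]
        exact Pool.Agent.W282.ZP.eval_relPoly_eq_zero (Z.det_pos i) (Z.det_pos j) hw1 hw1' hw2
          hw2'
      have h4 := Pool.Agent.TH526.ZL.sq_tie' hN h3 V hg1 (hcusp i hiC hi).1 (hcusp j hjC hj).1
        (hcusp i hiC hi).2 (a := 1) (b := 1) (a' := 1) (b' := 1) rfl rfl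
      simpa using h4
    · exfalso
      have h3 := rel_of_class isogenous_integral Z hxZ' hk' hk
      have h4 := mem_of_integral V (hmemx j hjC hj) h3
      exact absurd ((V.valuation_le_one_iff _).2 h4) (not_le.2 (hcusp i hiC hi).2)
  · exfalso
    by_cases hjC : j ∈ C
    · have h3 := rel_of_class isogenous_integral Z hxZ' hk hk'
      have h4 := mem_of_integral V (hmemx i hiC hi) h3
      exact absurd ((V.valuation_le_one_iff _).2 h4) (not_le.2 (hcusp j hjC hj).2)
    · obtain ⟨P⟩ := exists_pkg hp (h2 i hiC)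
      obtain ⟨A, hA, hrel⟩ := rel_of_two (M := Z.mat i) (M' := Z.mat j) (z := z k) (Z.det_pos i)
        (Z.det_pos j) hw1 hw1'
      refine hiso i j hiC hjC hij (near_isog hp (h2 i hiC) hpV P (hcm i hiC) (hcm j hjC)
        (hG P i hiC) (hG P j hjC) hA hrel ?_ ?_)
      · rw [← hw2]
        exact (hnear i hiC hi).1
      · rw [← hw2']
        exact (hnear j hjC hj).1

theorem prod_zpow_sum {G : Type*} [CommGroupWithZero G] {g : G} (hg : g ≠ 0) {ι : Type*}
    (S : Finset ι) (f : ι → ℤ) : ∏ i ∈ S, g ^ f i = g ^ ∑ i ∈ S, f i := by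
  classical
  induction S using Finset.induction_on with
  | empty => simp
  | insert a S ha ih => rw [Finset.prod_insert ha, Finset.sum_insert ha, ih, zpow_add₀ hg]

/-- The torus coordinates: a multiplicative relation between coordinates with given orders, or near
to torsion points with different distances, is orthogonal to the orders, and it does involve a
coordinate with a nonzero order. -/
theorem torus_val {p : ℕ} (hp : p.Prime) {V : ValuationSubring ℂ}
    (hpV : V.valuation (p : ℂ) < 1) {k s : ℕ} (P : Finset (Fin k)) (o : Fin k → ℤ)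
    (U : Fin k → Prop) {g : ℂ} (hg0 : g ≠ 0) (hg1 : V.valuation g < 1) {u : Fin k → ℂ}
    (hpolar : ∀ j ∈ P, U j → V.valuation (u j) * V.valuation g ^ o j = 1)
    (ζ : Fin k ⊕ Fin s → ℂ) (δ : Fin k ⊕ Fin s → ℂ) (γ : Fin s → ℂ)
    (hγ : ∀ i, V.valuation (γ i) = 1)
    (hζ : P ≠ Finset.univ → ∀ b, Sum.elim (fun j => j ∉ P) (fun _ => True) b →
      (∃ N : ℕ, 0 < N ∧ ζ b ^ N = 1) ∧ δ b ≠ 0 ∧
      V.valuation (δ b) ^ (p - 1) < V.valuation (p : ℂ) ∧
      ∀ b', Sum.elim (fun j => j ∉ P) (fun _ => True) b' → b ≠ b' → ∀ r t : ℕ,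
        V.valuation (δ b) * V.valuation (p : ℂ) ^ r ≠ V.valuation (δ b') * V.valuation (p : ℂ) ^ t)
    (hnear : ∀ j, j ∉ P → U j → V.valuation (u j - ζ (Sum.inl j)) = V.valuation (δ (Sum.inl j)))
    (hnear' : P ≠ Finset.univ → ∀ i,
      V.valuation (γ i - ζ (Sum.inr i)) = V.valuation (δ (Sum.inr i)))
    {η : Fin k → ℂ} (hη : ∀ j, ∃ N : ℕ, 0 < N ∧ ∃ c : Fin s → ℤ, η j ^ N = ∏ i, γ i ^ c i)
    {a : Fin k → ℤ} (hrel : ∏ j, u j ^ a j = ∏ j, η j ^ a j) (hsupp : ∀ j, ¬ U j → a j = 0) :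
    ∑ j ∈ P, a j * o j = 0 ∧ ((∀ j ∈ P, a j = 0) → a = 0) := by
  classical
  have hp1 : p - 1 ≠ 0 := by have := hp.two_le; omega
  have hroot : ∀ z : ℂ, (∃ N : ℕ, 0 < N ∧ z ^ N = 1) → V.valuation z = 1 := by
    rintro z ⟨N, hN, hz⟩
    have h := congrArg V.valuation hz
    rw [map_pow, map_one] at h
    exact (pow_eq_one_iff_left hN.ne').1 h
  have hsm : ∀ z : ℂ, V.valuation z ^ (p - 1) < V.valuation (p : ℂ) → V.valuation z < 1 := by
    intro z hz
    by_contra h
    have h1 : 1 ≤ V.valuation z ^ (p - 1) := one_le_pow₀ (not_lt.1 h)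
    exact absurd (h1.trans_lt (hz.trans hpV)) (lt_irrefl _)
  have hPne : ∀ j, j ∉ P → P ≠ Finset.univ := by
    intro j hj h
    exact hj (h ▸ Finset.mem_univ j)
  have hηV : ∀ j, V.valuation (η j) = 1 := by
    intro j
    obtain ⟨N, hN, c, hc⟩ := hη j
    have h := congrArg V.valuation hc
    rw [map_pow, map_prod] at h
    have h2 : ∏ i, V.valuation (γ i ^ c i) = 1 :=
      Finset.prod_eq_one fun i _ => by rw [map_zpow₀, hγ, one_zpow]
    rw [h2] at h
    exact (pow_eq_one_iff_left hN.ne').1 h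
  have hunit : ∀ j, j ∉ P → U j → V.valuation (u j) = 1 := by
    intro j hj hU
    obtain ⟨h1, -, h3, -⟩ := hζ (hPne j hj) (Sum.inl j) hj
    have e1 : u j = ζ (Sum.inl j) + (u j - ζ (Sum.inl j)) := by ring
    have h4 := hroot _ h1
    rw [e1, Valuation.map_add_eq_of_lt_left, h4]
    rw [h4, hnear j hj hU]
    exact hsm _ h3
  have hgv : V.valuation g ≠ 0 := (Valuation.ne_zero_iff _).2 hg0
  -- the orders
  have hord : ∑ j ∈ P, a j * o j = 0 := by
    have h := congrArg V.valuation hrel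
    rw [map_prod, map_prod] at h
    have h1 : ∏ j, V.valuation (η j ^ a j) = 1 :=
      Finset.prod_eq_one fun j _ => by rw [map_zpow₀, hηV, one_zpow]
    rw [h1] at h
    have h2 : ∀ j, V.valuation (u j ^ a j) =
        V.valuation g ^ (if j ∈ P then -(a j * o j) else 0) := by
      intro j
      rw [map_zpow₀]
      by_cases hU : U j
      · by_cases hj : j ∈ P
        · rw [if_pos hj]
          have h3 := hpolar j hj hU
          have h4 : V.valuation (u j) = V.valuation g ^ (-(o j)) := by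
            rw [zpow_neg]
            exact eq_inv_of_mul_eq_one_left h3
          rw [h4, ← zpow_mul]
          congr 1
          ring
        · rw [if_neg hj, hunit j hj hU, one_zpow, zpow_zero]
      · rw [hsupp j hU, zpow_zero]
        simp
    rw [Finset.prod_congr rfl fun j _ => h2 j, prod_zpow_sum hgv] at h
    have h3 := (zpow_eq_one_iff_right₀ zero_le hg1.ne).1 h
    rw [Finset.sum_ite_mem, Finset.univ_inter, Finset.sum_neg_distrib] at h3
    exact neg_eq_zero.1 h3
  refine ⟨hord, fun haP => ?_⟩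
  by_cases hP : P = Finset.univ
  · funext j
    exact haP j (hP ▸ Finset.mem_univ j)
  have hζ' := hζ hP
  have hγ' := hnear' hP
  have hex : ∀ b : Fin k ⊕ Fin s, ∃ M : ℕ, 0 < M ∧
      (Sum.elim (fun j => j ∉ P) (fun _ => True) b → ζ b ^ M = 1) := by
    intro b
    by_cases hb : Sum.elim (fun j => j ∉ P) (fun _ => True) b
    · obtain ⟨M, hM, h⟩ := (hζ' b hb).1
      exact ⟨M, hM, fun _ => h⟩
    · exact ⟨1, one_pos, fun h => absurd h hb⟩
  choose M hM hMζ using hex
  choose N hN c hc using hη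
  let MM : ℕ := ∏ b, M b
  let NN : ℕ := ∏ j, N j
  have hMM : 0 < MM := Finset.prod_pos fun b _ => hM b
  have hNN : 0 < NN := Finset.prod_pos fun j _ => hN j
  have hMMζ : ∀ b, Sum.elim (fun j => j ∉ P) (fun _ => True) b → ζ b ^ MM = 1 := by
    intro b hb
    obtain ⟨t, ht⟩ : M b ∣ MM := Finset.dvd_prod_of_mem M (Finset.mem_univ b)
    rw [ht, pow_mul, hMζ b hb, one_pow]
  have hNt : ∀ j, ∃ t : ℕ, NN = N j * t := fun j =>
    Finset.dvd_prod_of_mem N (Finset.mem_univ j)
  choose t ht using hNt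
  have hγ0 : ∀ i, γ i ≠ 0 := by
    intro i h
    have := hγ i
    rw [h, map_zero] at this
    exact zero_ne_one this
  have hζ0 : ∀ b, Sum.elim (fun j => j ∉ P) (fun _ => True) b → ζ b ≠ 0 := by
    intro b hb h
    have := hMMζ b hb
    rw [h, zero_pow hMM.ne'] at this
    exact zero_ne_one this
  -- the relation between the units
  have hbig : ∏ j, u j ^ (a j * (NN * MM : ℕ)) =
      ∏ i, γ i ^ ((MM : ℤ) * ∑ j, c j i * (t j * a j)) := by
    have h1 : ∏ j, u j ^ (a j * (NN * MM : ℕ)) = (∏ j, u j ^ a j) ^ (NN * MM) := by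
      rw [← Finset.prod_pow]
      refine Finset.prod_congr rfl fun j _ => ?_
      rw [zpow_mul, zpow_natCast]
    rw [h1, hrel, ← Finset.prod_pow]
    have h2 : ∀ j, (η j ^ a j) ^ (NN * MM) = ∏ i, γ i ^ ((MM : ℤ) * (c j i * (t j * a j))) := by
      intro j
      have h3 : (η j ^ a j) ^ (NN * MM) = (η j ^ N j) ^ ((t j : ℤ) * a j * MM) := by
        rw [← zpow_natCast (η j ^ a j), ← zpow_mul, ← zpow_natCast (η j), ← zpow_mul]
        congr 1
        rw [ht j]
        push_cast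
        ring
      rw [h3, hc j, ← Finset.prod_zpow]
      refine Finset.prod_congr rfl fun i _ => ?_
      rw [← zpow_mul]
      congr 1
      ring
    rw [Finset.prod_congr rfl fun j _ => h2 j, Finset.prod_comm]
    refine Finset.prod_congr rfl fun i _ => ?_
    rw [prod_zpow_sum (hγ0 i), Finset.mul_sum]
  let w : Fin k ⊕ Fin s → ℂ := Sum.elim (fun j => u j / ζ (Sum.inl j)) (fun i => γ i / ζ (Sum.inr i))
  let b : Fin k ⊕ Fin s → ℤ := Sum.elim (fun j => a j * (NN * MM : ℕ))
    (fun i => -((MM : ℤ) * ∑ j, c j i * (t j * a j)))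
  have hwval : ∀ x : ℂ, ∀ y : Fin k ⊕ Fin s,
      Sum.elim (fun j => j ∉ P) (fun _ => True) y → V.valuation (x - ζ y) = V.valuation (δ y) →
      V.valuation (x / ζ y - 1) = V.valuation (δ y) := by
    intro x y hy hxy
    have h1 : x / ζ y - 1 = (x - ζ y) / ζ y := by
      have := hζ0 y hy
      field_simp
    rw [h1, map_div₀, hroot _ ⟨MM, hMM, hMMζ y hy⟩, div_one, hxy]
  have hrelv : ∀ y, b y ≠ 0 → Sum.elim (fun j => j ∉ P) (fun _ => True) y ∧
      V.valuation (w y - 1) = V.valuation (δ y) := by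
    rintro (j | i) hb
    · have haj : a j ≠ 0 := by
        intro h
        apply hb
        show a j * _ = 0
        rw [h, zero_mul]
      have hj : j ∉ P := fun h => haj (haP j h)
      have hU : U j := by
        by_contra h
        exact haj (hsupp j h)
      exact ⟨hj, hwval (u j) (Sum.inl j) hj (hnear j hj hU)⟩
    · exact ⟨trivial, hwval (γ i) (Sum.inr i) trivial (hγ' i)⟩
  have hb0 : b = 0 := by
    refine independent V hp hpV w b ?_ ?_ ?_ ?_
    · intro y hy h1
      obtain ⟨h2, h3⟩ := hrelv y hy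
      rw [h1, sub_self, map_zero] at h3
      exact (Valuation.ne_zero_iff _).2 (hζ' y h2).2.1 h3.symm
    · intro y hy
      obtain ⟨h2, h3⟩ := hrelv y hy
      rw [h3]
      exact (hζ' y h2).2.2.1
    · intro y y' hy hy' hne r t
      obtain ⟨h2, h3⟩ := hrelv y hy
      obtain ⟨h2', h3'⟩ := hrelv y' hy'
      rw [h3, h3']
      exact (hζ' y h2).2.2.2 y' h2' hne r t
    · rw [Fintype.prod_sum_type]
      have h1 : ∏ j, w (Sum.inl j) ^ b (Sum.inl j) = ∏ j, u j ^ (a j * (NN * MM : ℕ)) := by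
        refine Finset.prod_congr rfl fun j _ => ?_
        show (u j / ζ (Sum.inl j)) ^ (a j * (NN * MM : ℕ)) = _
        by_cases hj : j ∈ P
        · rw [haP j hj, zero_mul, zpow_zero, zpow_zero]
        · rw [div_zpow]
          have h2 : ζ (Sum.inl j) ^ (a j * (NN * MM : ℕ)) = 1 := by
            have h3 : a j * ((NN * MM : ℕ) : ℤ) = (MM : ℤ) * (a j * NN) := by push_cast; ring
            rw [h3, zpow_mul, zpow_natCast, hMMζ (Sum.inl j) hj, one_zpow]
          rw [h2, div_one]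
      have h2 : ∏ i, w (Sum.inr i) ^ b (Sum.inr i) =
          (∏ i, γ i ^ ((MM : ℤ) * ∑ j, c j i * (t j * a j)))⁻¹ := by
        rw [← Finset.prod_inv_distrib]
        refine Finset.prod_congr rfl fun i _ => ?_
        show (γ i / ζ (Sum.inr i)) ^ (-((MM : ℤ) * ∑ j, c j i * (t j * a j))) = _
        rw [zpow_neg, div_zpow]
        have h4 : ζ (Sum.inr i) ^ ((MM : ℤ) * ∑ j, c j i * (t j * a j)) = 1 := by
          rw [zpow_mul, zpow_natCast, hMMζ (Sum.inr i) trivial, one_zpow]
        rw [h4, div_one]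
      rw [h1, h2, hbig]
      refine mul_inv_cancel₀ (Finset.prod_ne_zero_iff.2 fun i _ => zpow_ne_zero _ (hγ0 i))
  funext j
  have h1 := congrFun hb0 (Sum.inl j)
  have h2 : a j * ((NN * MM : ℕ) : ℤ) = 0 := h1
  rcases mul_eq_zero.1 h2 with h | h
  · exact h
  · exfalso
    have h3 : NN * MM = 0 := by exact_mod_cast h
    have := Nat.mul_pos hNN hMM
    omega

end Pool.Agent.U854.OP
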