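import Mathlib

/-!
Numbers near to `1` for a nonarchimedean valuation of mixed characteristic: if their distances from
`1` are small and differ modulo the powers of `p`, they are multiplicatively independent.
-/

set_option autoImplicit false

namespace Pool.Agent.U854.OP

variable {F : Type*} [Field F] (V : ValuationSubring F)

theorem val_natCast_le (n : ℕ) : V.valuation (n : F) ≤ 1 :=
  (V.valuation_le_one_iff _).2 (natCast_mem V n)

theorem val_one_add {x : F} (hx : V.valuation x < 1) : V.valuation (1 + x) = 1 := by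
  rw [Valuation.map_add_eq_of_lt_left _ (by rw [map_one]; exact hx), map_one]

/-- an integer prime to `p` is a unit -/
theorem val_prime_to {p : ℕ} (hp : p.Prime) (hpV : V.valuation (p : F) < 1) {b : ℕ}
    (hb : ¬ p ∣ b) : V.valuation (b : F) = 1 := by
  refine le_antisymm (val_natCast_le V b) (not_lt.1 fun h => ?_)
  have hco : IsCoprime (p : ℤ) (b : ℤ) :=
    Nat.isCoprime_iff_coprime.2 ((Nat.Prime.coprime_iff_not_dvd hp).2 hb)
  obtain ⟨s, t, hst⟩ := hco
  have h1 : (s : F) * (p : F) + (t : F) * (b : F) = 1 := by exact_mod_cast congrArg (Int.cast : ℤ → F) hst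
  have hs : V.valuation (s : F) ≤ 1 := (V.valuation_le_one_iff _).2 (intCast_mem V s)
  have ht : V.valuation (t : F) ≤ 1 := (V.valuation_le_one_iff _).2 (intCast_mem V t)
  have h2 : V.valuation ((s : F) * (p : F) + (t : F) * (b : F)) < 1 := by
    refine Valuation.map_add_lt _ ?_ ?_
    · rw [map_mul]
      exact (mul_le_of_le_one_left' hs).trans_lt hpV
    · rw [map_mul]
      exact (mul_le_of_le_one_left' ht).trans_lt h
  rw [h1, map_one] at h2
  exact lt_irrefl _ h2

/-- the valuation of a positive integer is a power of the valuation of `p` -/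
theorem val_natCast {p : ℕ} (hp : p.Prime) (hpV : V.valuation (p : F) < 1) {b : ℕ} (hb : b ≠ 0) :
    ∃ s : ℕ, V.valuation (b : F) = V.valuation (p : F) ^ s := by
  obtain ⟨s, b', hb', rfl⟩ := Nat.exists_eq_pow_mul_and_not_dvd hb p hp.ne_one
  refine ⟨s, ?_⟩
  rw [Nat.cast_mul, Nat.cast_pow, map_mul, map_pow, val_prime_to V hp hpV hb', mul_one]

theorem pow_prime {p : ℕ} (hp : p.Prime) (hpV : V.valuation (p : F) < 1) {x : F}
    (hx : V.valuation x ^ (p - 1) < V.valuation (p : F)) :
    V.valuation ((1 + x) ^ p - 1) = V.valuation (p : F) * V.valuation x := by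
  have hp1 : p - 1 ≠ 0 := by have := hp.two_le; omega
  have hx1 : V.valuation x < 1 := by
    by_contra h
    have h1 : 1 ≤ V.valuation x ^ (p - 1) := one_le_pow₀ (not_lt.1 h)
    exact absurd (h1.trans_lt (hx.trans hpV)) (lt_irrefl _)
  by_cases hx0 : x = 0
  · rw [hx0, add_zero, one_pow, sub_self, map_zero, mul_zero]
  have hxv : V.valuation x ≠ 0 := (Valuation.ne_zero_iff _).2 hx0
  have hpv : V.valuation (p : F) ≠ 0 := by
    intro h
    rw [h] at hx
    exact not_lt_zero hx
  have hxV : x ∈ V := (V.valuation_le_one_iff _).1 hx1.le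
  have key : (1 + x) ^ p - 1 = (p : F) * x + (x ^ p + (p : F) * x *
      (x * ∑ k ∈ Finset.Ioo 1 p, x ^ (k - 2) * ((p.choose k / p : ℕ) : F))) := by
    have h1 := add_pow_prime_eq hp x 1
    have h2 : Finset.Ioo 0 p = insert 1 (Finset.Ioo 1 p) := by
      ext k
      simp only [Finset.mem_Ioo, Finset.mem_insert]
      have := hp.one_lt
      omega
    rw [h2, Finset.sum_insert (by simp)] at h1
    have h3 : ∑ k ∈ Finset.Ioo 1 p, x ^ (k - 1) * 1 ^ (p - k - 1) * ((p.choose k / p : ℕ) : F) =
        x * ∑ k ∈ Finset.Ioo 1 p, x ^ (k - 2) * ((p.choose k / p : ℕ) : F) := by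
      rw [Finset.mul_sum]
      refine Finset.sum_congr rfl fun k hk => ?_
      have hk2 := (Finset.mem_Ioo.1 hk).1
      obtain ⟨t, rfl⟩ : ∃ t, k = t + 2 := ⟨k - 2, by omega⟩
      rw [one_pow, Nat.add_sub_cancel, show t + 2 - 1 = t + 1 by omega, pow_succ]
      ring
    rw [h3] at h1
    have h4 : p.choose 1 / p = 1 := by
      rw [Nat.choose_one_right]
      exact Nat.div_self hp.pos
    rw [h4] at h1
    rw [add_comm 1 x, h1]
    simp only [Nat.sub_self, pow_zero, one_pow, Nat.cast_one, mul_one]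
    ring
  have hmain : V.valuation ((p : F) * x) = V.valuation (p : F) * V.valuation x := map_mul _ _ _
  have hlt : V.valuation (x ^ p + (p : F) * x *
      (x * ∑ k ∈ Finset.Ioo 1 p, x ^ (k - 2) * ((p.choose k / p : ℕ) : F))) <
      V.valuation ((p : F) * x) := by
    refine Valuation.map_add_lt _ ?_ ?_
    · rw [hmain, map_pow]
      calc V.valuation x ^ p = V.valuation x ^ (p - 1) * V.valuation x := by
            rw [← pow_succ]
            congr 1
            have := hp.pos
            omega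
        _ < V.valuation (p : F) * V.valuation x :=
            mul_lt_mul_of_pos_right hx (zero_lt_iff.2 hxv)
    · rw [map_mul]
      have h5 : V.valuation (x * ∑ k ∈ Finset.Ioo 1 p, x ^ (k - 2) * ((p.choose k / p : ℕ) : F))
          < 1 := by
        rw [map_mul]
        refine lt_of_le_of_lt (mul_le_of_le_one_right' ?_) hx1
        rw [V.valuation_le_one_iff]
        exact sum_mem fun k _ => mul_mem (pow_mem hxV _) (natCast_mem V _)
      calc V.valuation ((p : F) * x) *
            V.valuation (x * ∑ k ∈ Finset.Ioo 1 p, x ^ (k - 2) * ((p.choose k / p : ℕ) : F)) <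
            V.valuation ((p : F) * x) * 1 := by
              refine mul_lt_mul_of_pos_left h5 (zero_lt_iff.2 ?_)
              rw [hmain]
              exact mul_ne_zero hpv hxv
        _ = V.valuation ((p : F) * x) := mul_one _
  rw [key, Valuation.map_add_eq_of_lt_left _ hlt, hmain]

theorem pow_coprime {x : F} (hx : V.valuation x < 1) {b : ℕ} (hb : V.valuation (b : F) = 1) :
    V.valuation ((1 + x) ^ b - 1) = V.valuation x := by
  have hxV : x ∈ V := (V.valuation_le_one_iff _).1 hx.le
  have h1 : (1 + x) ^ b - 1 = x * ∑ i ∈ Finset.range b, (1 + x) ^ i := by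
    have := mul_geom_sum (1 + x) b
    rw [← this]
    ring
  have h2 : ∃ z ∈ V, ∑ i ∈ Finset.range b, (1 + x) ^ i = (b : F) + x * z := by
    have h3 : ∀ i : ℕ, ∃ z ∈ V, (1 + x) ^ i = 1 + x * z := by
      intro i
      induction i with
      | zero => exact ⟨0, V.zero_mem, by simp⟩
      | succ i ih =>
        obtain ⟨z, hz, h⟩ := ih
        refine ⟨z + 1 + x * z, V.add_mem _ _ (V.add_mem _ _ hz V.one_mem) (V.mul_mem _ _ hxV hz), ?_⟩
        rw [pow_succ, h]
        ring
    choose z hz h using h3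
    refine ⟨∑ i ∈ Finset.range b, z i, sum_mem fun i _ => hz i, ?_⟩
    rw [Finset.mul_sum]
    calc ∑ i ∈ Finset.range b, (1 + x) ^ i = ∑ i ∈ Finset.range b, (1 + x * z i) :=
          Finset.sum_congr rfl fun i _ => h i
      _ = (b : F) + ∑ i ∈ Finset.range b, x * z i := by
          rw [Finset.sum_add_distrib]
          simp
  obtain ⟨z, hz, h⟩ := h2
  have h4 : V.valuation (x * z) < V.valuation (b : F) := by
    rw [hb, map_mul]
    exact (mul_le_of_le_one_right' ((V.valuation_le_one_iff _).2 hz)).trans_lt hx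
  rw [h1, h, map_mul, Valuation.map_add_eq_of_lt_left _ h4, hb, mul_one]

/-- `|(1 + x) ^ b - 1| = |b| |x|` for small `x` -/
theorem pow_val {p : ℕ} (hp : p.Prime) (hpV : V.valuation (p : F) < 1) {x : F}
    (hx : V.valuation x ^ (p - 1) < V.valuation (p : F)) {b : ℕ} (hb : b ≠ 0) :
    V.valuation ((1 + x) ^ b - 1) = V.valuation (b : F) * V.valuation x := by
  have hp1 : p - 1 ≠ 0 := by have := hp.two_le; omega
  have hx1 : V.valuation x < 1 := by
    by_contra h
    have h1 : 1 ≤ V.valuation x ^ (p - 1) := one_le_pow₀ (not_lt.1 h)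
    exact absurd (h1.trans_lt (hx.trans hpV)) (lt_irrefl _)
  obtain ⟨s, b', hb', rfl⟩ := Nat.exists_eq_pow_mul_and_not_dvd hb p hp.ne_one
  have hb1 := val_prime_to V hp hpV hb'
  clear hb
  induction s with
  | zero => 
    rw [pow_zero, one_mul, hb1, one_mul]
    exact pow_coprime V hx1 hb1
  | succ s ih =>
    have h1 : (1 + x) ^ (p ^ (s + 1) * b') = (1 + ((1 + x) ^ (p ^ s * b') - 1)) ^ p := by
      rw [add_sub_cancel, ← pow_mul]
      congr 1
      ring
    have h2 : V.valuation ((1 + x) ^ (p ^ s * b') - 1) ≤ V.valuation x := by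
      rw [ih]
      exact mul_le_of_le_one_left' (val_natCast_le V _)
    rw [h1, pow_prime V hp hpV ((pow_le_pow_left₀ zero_le h2 _).trans_lt hx), ih]
    rw [← mul_assoc, ← map_mul]
    congr 2
    push_cast
    ring

/-- the same for integral exponents -/
theorem zpow_val {p : ℕ} (hp : p.Prime) (hpV : V.valuation (p : F) < 1) {w : F}
    (hx : V.valuation (w - 1) ^ (p - 1) < V.valuation (p : F)) {b : ℤ} (hb : b ≠ 0) :
    V.valuation (w ^ b) = 1 ∧
    ∃ s : ℕ, V.valuation (w ^ b - 1) = V.valuation (w - 1) * V.valuation (p : F) ^ s := by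
  have hp1 : p - 1 ≠ 0 := by have := hp.two_le; omega
  have hx1 : V.valuation (w - 1) < 1 := by
    by_contra h
    have h1 : 1 ≤ V.valuation (w - 1) ^ (p - 1) := one_le_pow₀ (not_lt.1 h)
    exact absurd (h1.trans_lt (hx.trans hpV)) (lt_irrefl _)
  have hw : w = 1 + (w - 1) := by ring
  have hw1 : V.valuation w = 1 := by
    rw [hw]
    exact val_one_add V hx1
  have hw0 : w ≠ 0 := by
    rintro rfl
    rw [map_zero] at hw1
    exact zero_ne_one hw1
  have hnat : ∀ m : ℕ, m ≠ 0 → ∃ s : ℕ,
      V.valuation (w ^ m - 1) = V.valuation (w - 1) * V.valuation (p : F) ^ s := by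
    intro m hm
    obtain ⟨s, hs⟩ := val_natCast V hp hpV hm
    refine ⟨s, ?_⟩
    have h := pow_val V hp hpV hx hm
    rw [← hw] at h
    rw [h, hs, mul_comm]
  refine ⟨by rw [map_zpow₀, hw1, one_zpow], ?_⟩
  rcases Int.natAbs_eq b with h | h
  · have hm : b.natAbs ≠ 0 := Int.natAbs_ne_zero.2 hb
    obtain ⟨s, hs⟩ := hnat _ hm
    refine ⟨s, ?_⟩
    rw [h, zpow_natCast]
    exact hs
  · have hm : b.natAbs ≠ 0 := Int.natAbs_ne_zero.2 hb
    obtain ⟨s, hs⟩ := hnat _ hm
    refine ⟨s, ?_⟩
    rw [h, zpow_neg, zpow_natCast]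
    have h3 : (w ^ b.natAbs)⁻¹ - 1 = -((w ^ b.natAbs - 1) * (w ^ b.natAbs)⁻¹) := by
      field_simp
      ring
    rw [h3, Valuation.map_neg, map_mul, map_inv₀, map_pow, hw1, one_pow, inv_one, mul_one]
    exact hs

/-- products of units with different distances from `1` -/
theorem prod_val {ι : Type*} (t : ι → F) (ht1 : ∀ i, V.valuation (t i) = 1)
    (S : Finset ι) (hS : S.Nonempty)
    (hdist : ∀ i ∈ S, ∀ j ∈ S, i ≠ j → V.valuation (t i - 1) ≠ V.valuation (t j - 1)) :
    ∃ j ∈ S, V.valuation (∏ i ∈ S, t i - 1) = V.valuation (t j - 1) := by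
  classical
  induction hS using Finset.Nonempty.cons_induction with
  | singleton a => exact ⟨a, Finset.mem_singleton_self a, by simp⟩
  | cons a S ha hS ih =>
    obtain ⟨j, hj, hjv⟩ := ih fun i hi j hj =>
      hdist i (Finset.mem_cons_of_mem hi) j (Finset.mem_cons_of_mem hj)
    have hne : V.valuation (t a - 1) ≠ V.valuation (t j - 1) :=
      hdist a (Finset.mem_cons_self a S) j (Finset.mem_cons_of_mem hj) (by
        rintro rfl
        exact ha hj)
    have h1 : ∏ i ∈ Finset.cons a S ha, t i - 1 = (t a - 1) + t a * (∏ i ∈ S, t i - 1) := by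
      rw [Finset.prod_cons]
      ring
    have h2 : V.valuation (t a * (∏ i ∈ S, t i - 1)) = V.valuation (t j - 1) := by
      rw [map_mul, ht1, one_mul, hjv]
    rcases lt_or_gt_of_ne hne with h | h
    · refine ⟨j, Finset.mem_cons_of_mem hj, ?_⟩
      rw [h1, Valuation.map_add_eq_of_lt_right _ (by rw [h2]; exact h), h2]
    · refine ⟨a, Finset.mem_cons_self a S, ?_⟩
      rw [h1, Valuation.map_add_eq_of_lt_left _ (by rw [h2]; exact h)]

/-- Numbers near to `1` whose distances differ modulo powers of `p` are multiplicatively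
independent. -/
theorem independent {p : ℕ} (hp : p.Prime) (hpV : V.valuation (p : F) < 1) {ι : Type*}
    [Fintype ι] (w : ι → F) (b : ι → ℤ)
    (h0 : ∀ i, b i ≠ 0 → w i ≠ 1)
    (hsmall : ∀ i, b i ≠ 0 → V.valuation (w i - 1) ^ (p - 1) < V.valuation (p : F))
    (hdist : ∀ i j, b i ≠ 0 → b j ≠ 0 → i ≠ j → ∀ s t : ℕ,
      V.valuation (w i - 1) * V.valuation (p : F) ^ s ≠
        V.valuation (w j - 1) * V.valuation (p : F) ^ t)
    (hprod : ∏ i, w i ^ b i = 1) : b = 0 := by
  classical
  by_contra hne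
  let S : Finset ι := Finset.univ.filter fun i => b i ≠ 0
  have hS : S.Nonempty := by
    by_contra h
    rw [Finset.not_nonempty_iff_eq_empty] at h
    apply hne
    funext i
    by_contra hi
    have : i ∈ S := Finset.mem_filter.2 ⟨Finset.mem_univ _, hi⟩
    rw [h] at this
    exact absurd this (Finset.notMem_empty i)
  have hprod' : ∏ i ∈ S, w i ^ b i = 1 := by
    rw [← hprod]
    refine Finset.prod_subset (Finset.subset_univ S) fun i _ hi => ?_
    have : b i = 0 := by
      by_contra h
      exact hi (Finset.mem_filter.2 ⟨Finset.mem_univ _, h⟩)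
    rw [this, zpow_zero]
  have hex : ∀ i ∈ S, ∃ s : ℕ,
      V.valuation (w i ^ b i - 1) = V.valuation (w i - 1) * V.valuation (p : F) ^ s :=
    fun i hi => (zpow_val V hp hpV (hsmall i (Finset.mem_filter.1 hi).2)
      (Finset.mem_filter.1 hi).2).2
  obtain ⟨j, hj, hjv⟩ := prod_val V (fun i => if b i ≠ 0 then w i ^ b i else 1) (by
    intro i
    by_cases hi : b i ≠ 0
    · simp only [if_pos hi]
      exact (zpow_val V hp hpV (hsmall i hi) hi).1
    · simp only [if_neg hi, map_one]) S hS (by
    intro i hi j hj hij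
    have hi' := (Finset.mem_filter.1 hi).2
    have hj' := (Finset.mem_filter.1 hj).2
    simp only [if_pos hi', if_pos hj']
    obtain ⟨s, hs⟩ := hex i hi
    obtain ⟨t, ht⟩ := hex j hj
    rw [hs, ht]
    exact hdist i j hi' hj' hij s t)
  have hj' := (Finset.mem_filter.1 hj).2
  have h1 : ∏ i ∈ S, (if b i ≠ 0 then w i ^ b i else 1) = ∏ i ∈ S, w i ^ b i :=
    Finset.prod_congr rfl fun i hi => by rw [if_pos (Finset.mem_filter.1 hi).2]
  rw [h1, hprod', sub_self, map_zero, if_pos hj'] at hjv
  obtain ⟨s, hs⟩ := hex j hj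
  rw [hs] at hjv
  have h2 : V.valuation (p : F) ≠ 0 := by
    intro h
    have := hsmall j hj'
    rw [h] at this
    exact not_lt_zero this
  have h3 : V.valuation (w j - 1) ≠ 0 :=
    (Valuation.ne_zero_iff _).2 (sub_ne_zero.2 (h0 j hj'))
  exact mul_ne_zero h3 (pow_ne_zero _ h2) hjv.symm

end Pool.Agent.U854.OP
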